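import Pool.Agent.R852.SC.Smooth
import Pool.Agent.W574.CN.Gen

set_option autoImplicit false
set_option linter.unusedSectionVars false
set_option linter.unusedVariables false

/-! # The chart of the blow-up of the origin -/

namespace Pool.Agent.R852.SC

open MvPowerSeries Pool.Agent.W574.SM Pool.Agent.TH187.SA Pool.Agent.Y231.RF
  Pool.Agent.TH192.DT

variable {σ τ : Type} [Fintype σ] [DecidableEq σ] [Fintype τ] [DecidableEq τ] {κ : τ → Type}
  [∀ t, Fintype (κ t)] [∀ t, DecidableEq (κ t)]

theorem exists_eval_ne (Q : MvPolynomial σ ℂ) (hQ : Q ≠ 0) : ∃ u : σ → ℂ, MvPolynomial.eval u Q ≠ 0 := by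
  by_contra h
  push Not at h
  exact hQ (MvPolynomial.funext fun u => by rw [h u, map_zero])

/-- **The chart of the blow-up of the origin.** -/
theorem cone_chart (g : (t : τ) → κ t → MvPolynomial σ ℂ) (δ : τ → ℕ) (hδ : ∀ t, 0 < δ t)
    (hg : ∀ t j, (g t j).IsHomogeneous (δ t)) (hg0 : ∀ t, ∃ j, g t j ≠ 0) (A : τ → Prop)
    (t0 : τ) (hA : A t0) (e : σ → κ t0)
    (hJ : (Matrix.of fun i s => MvPolynomial.pderiv i (g t0 (e s))).det ≠ 0) :
    ∃ E : Chart g, E.k + 1 = Fintype.card σ ∧ E.m = δ ∧ E.IsRees A ∧
      ∀ H : MvPolynomial σ ℂ, MvPolynomial.constantCoeff H ≠ 0 →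
        constantCoeff (MvPolynomial.aeval E.ξ H) ≠ 0 := by
  choose j0 hj0 using hg0
  obtain ⟨u, hu⟩ := exists_eval_ne ((∏ t, g t (j0 t)) *
    (Matrix.of fun i s => MvPolynomial.pderiv i (g t0 (e s))).det)
    (mul_ne_zero (Finset.prod_ne_zero_iff.2 fun t _ => hj0 t) hJ)
  rw [map_mul, map_prod] at hu
  have hug : ∀ t, MvPolynomial.eval u (g t (j0 t)) ≠ 0 := fun t =>
    Finset.prod_ne_zero_iff.1 (left_ne_zero_of_mul hu) t (Finset.mem_univ t)
  set M : Matrix σ σ ℂ := Matrix.of fun i s =>
    MvPolynomial.eval u (MvPolynomial.pderiv i (g t0 (e s))) with hMdef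
  have hM : M.det ≠ 0 := by
    have h1 := right_ne_zero_of_mul hu
    rw [RingHom.map_det] at h1
    exact h1
  have hu0 : u ∉ (⊥ : Submodule ℂ (σ → ℂ)) := by
    rw [Submodule.mem_bot]
    rintro rfl
    apply hug t0
    have h1 := Pool.Agent.W574.CN.aeval_mul_homog (S := ℂ) (fun _ : σ => (0 : ℂ)) 0 (g t0 (j0 t0))
      (δ t0) (hg t0 (j0 t0))
    rw [zero_pow (hδ t0).ne'] at h1
    simp only [zero_mul] at h1
    rw [MvPolynomial.aeval_eq_eval] at h1
    exact h1
  obtain ⟨v, z, T, hzT, hvz, hvT, hcoord, hcard⟩ := exists_adapted ⊥ u hu0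
  have hT : T = ∅ := by
    rw [← Finset.card_eq_zero, hcard, finrank_bot]
  subst hT
  let D : Lc σ := ⟨Matrix.of fun i j => v i j, det_basis v, z, ∅, hzT, 0⟩
  obtain ⟨U0, hU0, hJac⟩ := D.jacobian
  have hkc : Fintype.card σ - 1 - D.T.card + 1 = Fintype.card σ := by
    have h1 : 0 < Fintype.card σ := Fintype.card_pos_iff.2 ⟨z⟩
    change Fintype.card σ - 1 - (∅ : Finset σ).card + 1 = _
    rw [Finset.card_empty]
    omega
  -- the fibre coordinates
  set y : σ → MvPowerSeries σ ℂ := fun j => C (u j) +
    ∑ i ∈ Finset.univ.erase z, C (v i j) * X i with hydef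
  have hxi : D.xi = fun j => X z * y j := by
    funext j
    rw [Lc.xi, hydef]
    change C ((0 : σ → ℂ) j) + _ = _
    rw [Pi.zero_apply, map_zero, zero_add, ← Finset.add_sum_erase _ _ (Finset.mem_univ z)]
    have h1 : D.eta z = X z := D.eta_z
    have h2 : D.v z j = u j := congrFun hvz j
    rw [h1, h2, mul_add, Finset.mul_sum, mul_comm (X z)]
    congr 1
    refine Finset.sum_congr rfl fun i hi => ?_
    have h3 : D.eta i = X z * X i :=
      D.eta_N (fun h => absurd h (Finset.notMem_empty i)) (Finset.ne_of_mem_erase hi)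
    rw [h3]
    change C (v i j) * _ = _
    ring
  have hycc : ∀ j, constantCoeff (y j) = u j := by
    intro j
    rw [hydef]
    simp only [map_add, constantCoeff_C, map_sum, map_mul, constantCoeff_X, mul_zero,
      Finset.sum_const_zero, add_zero]
  have hyd : ∀ r, r ≠ z → ∀ j, pderiv ℂ r (y j) = C (v r j) := by
    intro r hr j
    rw [hydef]
    simp only
    rw [map_add, pderiv_C, zero_add, map_sum, Finset.sum_eq_single r]
    · rw [Derivation.leibniz, pderiv_C, smul_zero, add_zero, pderiv_X_self, smul_eq_mul, mul_one]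
    · intro i _ hir
      rw [Derivation.leibniz, pderiv_C, smul_zero, add_zero, pderiv_X_of_ne hir, smul_zero]
    · intro h
      exact absurd (Finset.mem_erase.2 ⟨hr, Finset.mem_univ r⟩) h
  have hev : ∀ t j, MvPolynomial.aeval D.xi (g t j) = X z ^ δ t * MvPolynomial.aeval y (g t j) := by
    intro t j
    rw [hxi]
    exact Pool.Agent.W574.CN.aeval_mul_homog y (X z) (g t j) (δ t) (hg t j)
  have hccy : ∀ q : MvPolynomial σ ℂ, constantCoeff (MvPolynomial.aeval y q) =
      MvPolynomial.eval u q := fun q => cc_aeval' y u hycc q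
  let E : Chart g :=
    { z := z
      ξ := D.xi
      k := Fintype.card σ - 1 - D.T.card
      m := δ
      j0 := j0
      jacobian := ⟨U0, hU0, hJac⟩
      divides := fun t j => ⟨_, hev t j⟩
      attained := fun t => ⟨_, by rw [hccy]; exact hug t, hev t (j0 t)⟩ }
  refine ⟨E, hkc, rfl, ?_, fun H hH => ?_⟩
  · -- the combinations
    set q : σ → σ → ℂ := fun s i => v.coord s (Pi.single i 1) with hqdef
    set cf : σ → σ → ℂ := fun s => M⁻¹.mulVec (q s) with hcfdef
    have hMM : M * M⁻¹ = 1 := Matrix.mul_nonsing_inv _ (isUnit_iff_ne_zero.2 hM)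
    have hcf : ∀ s i, ∑ s', cf s s' * M i s' = q s i := by
      intro s i
      have h1 : M.mulVec (cf s) = q s := by
        rw [hcfdef, Matrix.mulVec_mulVec, hMM, Matrix.one_mulVec]
      rw [← h1, Matrix.mulVec, dotProduct]
      exact Finset.sum_congr rfl fun s' _ => mul_comm _ _
    -- the value at the base point
    have hval : ∀ s, s ≠ z → ∑ s', cf s s' * MvPolynomial.eval u (g t0 (e s')) = 0 := by
      intro s hs
      have h1 : ∀ s', (δ t0 : ℂ) * MvPolynomial.eval u (g t0 (e s')) = ∑ i, u i * M i s' := by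
        intro s'
        have h2 := congrArg (MvPolynomial.eval u) (hg t0 (e s')).sum_X_mul_pderiv
        rw [map_sum, map_nsmul, nsmul_eq_mul] at h2
        rw [← h2]
        refine Finset.sum_congr rfl fun i _ => ?_
        rw [map_mul, MvPolynomial.eval_X]
        rfl
      have h2 : (δ t0 : ℂ) * ∑ s', cf s s' * MvPolynomial.eval u (g t0 (e s')) = 0 := by
        rw [Finset.mul_sum]
        have h3 : ∀ s', (δ t0 : ℂ) * (cf s s' * MvPolynomial.eval u (g t0 (e s'))) =
            ∑ i, u i * (cf s s' * M i s') := by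
          intro s'
          rw [mul_left_comm, h1, Finset.mul_sum]
          refine Finset.sum_congr rfl fun i _ => ?_
          ring
        rw [Finset.sum_congr rfl fun s' _ => h3 s', Finset.sum_comm]
        have h4 : ∀ i, ∑ s', u i * (cf s s' * M i s') = q s i * u i := by
          intro i
          rw [← Finset.mul_sum, hcf, mul_comm]
        rw [Finset.sum_congr rfl fun i _ => h4 i]
        have h5 : ∑ i, q s i * u i = v.coord s u := dual_rep _ _
        rw [h5, ← hvz, Module.Basis.coord_apply, Module.Basis.repr_self,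
          Finsupp.single_eq_of_ne hs]
      exact (mul_eq_zero.1 h2).resolve_left (Nat.cast_ne_zero.2 (hδ t0).ne')
    have hder : ∀ s r, r ≠ z → constantCoeff (pderiv ℂ r
        (∑ s', C (cf s s') * MvPolynomial.aeval y (g t0 (e s')))) = if r = s then 1 else 0 := by
      intro s r hr
      rw [map_sum, map_sum]
      have h1 : ∀ s', constantCoeff (pderiv ℂ r (C (cf s s') *
          MvPolynomial.aeval y (g t0 (e s')))) = ∑ i, v r i * (cf s s' * M i s') := by
        intro s'
        rw [Derivation.leibniz, pderiv_C, smul_zero, add_zero, smul_eq_mul, map_mul,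
          constantCoeff_C, pderiv_aeval, map_sum, Finset.mul_sum]
        refine Finset.sum_congr rfl fun i _ => ?_
        rw [map_mul, hccy, hyd r hr, constantCoeff_C]
        change _ = v r i * (cf s s' * MvPolynomial.eval u (MvPolynomial.pderiv i (g t0 (e s'))))
        ring
      rw [Finset.sum_congr rfl fun s' _ => h1 s', Finset.sum_comm]
      have h4 : ∀ i, ∑ s', v r i * (cf s s' * M i s') = q s i * v r i := by
        intro i
        rw [← Finset.mul_sum, hcf, mul_comm]
      rw [Finset.sum_congr rfl fun i _ => h4 i]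
      have h5 : ∑ i, q s i * v r i = v.coord s (v r) := dual_rep _ _
      rw [h5, Module.Basis.coord_apply, Module.Basis.repr_self, Finsupp.single_apply]
    have hcc0 : ∀ s, s ≠ z → constantCoeff
        (∑ s', C (cf s s') * MvPolynomial.aeval y (g t0 (e s'))) = 0 := by
      intro s hs
      rw [map_sum, ← hval s hs]
      refine Finset.sum_congr rfl fun s' _ => ?_
      rw [map_mul, constantCoeff_C, hccy]
    set V0 : MvPowerSeries σ ℂ := MvPolynomial.aeval y (g t0 (j0 t0)) with hV0def
    have hV0c : constantCoeff V0 ≠ 0 := by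
      rw [hV0def, hccy]
      exact hug t0
    have hVinv : V0 * V0⁻¹ = 1 := MvPowerSeries.mul_inv_cancel _ hV0c
    have hV0 : constantCoeff V0⁻¹ ≠ 0 := by
      intro h0
      have h2 := congrArg constantCoeff hVinv
      rw [map_mul, h0, mul_zero, map_one] at h2
      exact zero_ne_one h2
    set w : σ → MvPowerSeries σ ℂ := fun s => if s ≠ z then
      (∑ s', C (cf s s') * MvPolynomial.aeval y (g t0 (e s'))) * V0⁻¹ else X s with hwdef
    have hwN : ∀ s, s ≠ z → w s =
        (∑ s', C (cf s s') * MvPolynomial.aeval y (g t0 (e s'))) * V0⁻¹ := fun s hs => if_pos hs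
    have hwz : w z = X z := if_neg fun h => h rfl
    refine ⟨w, hwz, fun s => ?_, ?_, fun s hsz => Or.inr ?_⟩
    · by_cases hs : s = z
      · rw [hs, hwz, constantCoeff_X]
      · rw [hwN s hs, map_mul, hcc0 s hs, zero_mul]
    · intro hdet0
      obtain ⟨x, hx0, hx⟩ := Matrix.exists_mulVec_eq_zero_iff.2 hdet0
      apply hx0
      have hrow : ∀ r, ∑ s, constantCoeff (pderiv ℂ r (w s)) * x s = 0 := fun r => congrFun hx r
      have h1 : ∀ r, r ≠ z → x r = 0 := by
        intro r hrz
        have h2 := hrow r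
        rw [Finset.sum_eq_single r] at h2
        · rw [hwN r hrz, Derivation.leibniz, smul_eq_mul, smul_eq_mul, map_add, map_mul, map_mul,
            hcc0 r hrz, zero_mul, zero_add, hder r r hrz, if_pos rfl, mul_one] at h2
          exact (mul_eq_zero.1 h2).resolve_left hV0
        · intro s _ hsr
          by_cases hs : s = z
          · rw [hs, hwz, pderiv_X_of_ne (Ne.symm hrz), map_zero, zero_mul]
          · rw [hwN s hs, Derivation.leibniz, smul_eq_mul, smul_eq_mul, map_add, map_mul,
              map_mul, hcc0 s hs, zero_mul, zero_add, hder s r hrz,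
              if_neg (Ne.symm hsr), mul_zero, zero_mul]
        · intro h
          exact absurd (Finset.mem_univ r) h
      funext r
      by_cases hr : r = z
      · subst hr
        have h2 := hrow r
        rw [Finset.sum_eq_single r] at h2
        · rw [hwz, pderiv_X_self, map_one, one_mul] at h2
          exact h2
        · intro s _ hsr
          rw [h1 s hsr, mul_zero]
        · intro h
          exact absurd (Finset.mem_univ r) h
      · exact h1 r hr
    · refine ⟨t0, hA, fun j => ∑ s', if e s' = j then cf s s' else 0, ?_⟩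
      change ∑ j, (∑ s', if e s' = j then cf s s' else 0) • MvPolynomial.aeval D.xi (g t0 j) =
        MvPolynomial.aeval D.xi (g t0 (j0 t0)) * w s
      have h1 : ∑ j, (∑ s', if e s' = j then cf s s' else 0) • MvPolynomial.aeval D.xi (g t0 j) =
          ∑ s', cf s s' • MvPolynomial.aeval D.xi (g t0 (e s')) := by
        simp only [Finset.sum_smul]
        rw [Finset.sum_comm]
        refine Finset.sum_congr rfl fun s' _ => ?_
        simp only [ite_smul, zero_smul]
        rw [Finset.sum_ite_eq, if_pos (Finset.mem_univ _)]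
      rw [h1, hwN s hsz, hev]
      have h2 : ∑ s', cf s s' • MvPolynomial.aeval D.xi (g t0 (e s')) =
          X z ^ δ t0 * ∑ s', C (cf s s') * MvPolynomial.aeval y (g t0 (e s')) := by
        rw [Finset.mul_sum]
        refine Finset.sum_congr rfl fun s' _ => ?_
        rw [hev, smul_eq_C_mul]
        ring
      rw [h2]
      linear_combination (- X z ^ δ t0 * ∑ s', C (cf s s') *
        MvPolynomial.aeval y (g t0 (e s'))) * hVinv
  · change constantCoeff (MvPolynomial.aeval D.xi H) ≠ 0
    have h1 : ∀ i, constantCoeff (D.xi i) = (0 : σ → ℂ) i := D.cc_xi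
    rw [cc_aeval' D.xi 0 h1, MvPolynomial.eval_zero]
    exact hH

end Pool.Agent.R852.SC
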