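import Mathlib

set_option autoImplicit false

/-! # Ideals which are powers of the ideal of a smooth variety near a point -/

namespace Pool.Agent.R852.SC

open MvPolynomial

/-- Near the point `p`, the ideals `I_t` generated by the `g t j` are the powers `I(Z) ^ m t` of the
ideal of a smooth variety `Z` of codimension `c` through `p`: there are polynomials `h s`, which
(minus their values at `p`) are local coordinates at `p`, `c` of them, the `h s` with `s ∈ N`, vanish
at `p`, and, for `J = (h s)_{s ∈ N}` and some polynomial `u` with `u(p) ≠ 0`,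
`u I_t ⊆ J ^ m t` and `u J ^ m t ⊆ I_t` for all `t`. -/
def PowersOfSmooth {σ τ : Type} [Fintype σ] [DecidableEq σ] {κ : τ → Type}
    (g : (t : τ) → κ t → MvPolynomial σ ℂ) (c : ℕ) (m : τ → ℕ) (p : σ → ℂ) : Prop :=
  ∃ (h : σ → MvPolynomial σ ℂ) (N : Finset σ) (u : MvPolynomial σ ℂ),
    (Matrix.of fun i s => eval p (pderiv i (h s))).det ≠ 0 ∧ N.Nonempty ∧ N.card = c ∧
    (∀ s ∈ N, eval p (h s) = 0) ∧ eval p u ≠ 0 ∧
    ∀ t, (∀ j, u * g t j ∈ Ideal.span (h '' N) ^ m t) ∧
      ∀ x ∈ Ideal.span (h '' N) ^ m t, u * x ∈ Ideal.span (Set.range (g t))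

/-- The numbers `ν`: `n` for the exceptional divisor over the origin, the codimensions `c i` for the
exceptional divisors over the cones of the `Z_i`, and `1` for the strict transforms. -/
def nuC {I : Type} (n : ℕ) (c : I → ℕ) (T : Type) : Option I ⊕ T → ℕ :=
  Sum.elim (fun o => o.elim n c) fun _ => 1

/-- The multiplicities of `∏ t, F_t ^ a t`: `∑ t, a t * δ t` along the exceptional divisor over the
origin, where `δ t` is the degree of the generators of `I_t`, `∑ t, a t * m i t` along the exceptional
divisor over the cone of `Z_i`, and `a t` along the strict transform of `F_t = 0`. -/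
def mulC {I T : Type} [Fintype T] (δ : T → ℕ) (m : I → T → ℕ) (a : T → ℕ) : Option I ⊕ T → ℕ :=
  Sum.elim (fun o => ∑ t, a t * o.elim δ m t) a

end Pool.Agent.R852.SC
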