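import Pool.Agent.Y231.RF.Coords

set_option autoImplicit false
set_option linter.unusedSectionVars false
set_option linter.unusedVariables false

/-! # The formal inverse function theorem -/

namespace Pool.Agent.R852.SC

open MvPowerSeries

variable {σ τ : Type} [Fintype σ] [DecidableEq σ]

/-- the filtration by the order -/
def V (k : ℕ) (a : MvPowerSeries τ ℂ) : Prop := (k : ℕ∞) ≤ a.order

theorem V_iff {k : ℕ} {a : MvPowerSeries τ ℂ} : V k a ↔ ∀ n : τ →₀ ℕ, n.degree < k → coeff n a = 0 := by
  constructor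
  · intro h n hn
    exact coeff_of_lt_order (lt_of_lt_of_le (by exact_mod_cast hn) h)
  · intro h
    exact nat_le_order h

theorem V_zero (k : ℕ) : V k (0 : MvPowerSeries τ ℂ) := by
  rw [V_iff]
  intro n _
  rw [map_zero]

theorem V_add {k : ℕ} {a b : MvPowerSeries τ ℂ} (ha : V k a) (hb : V k b) : V k (a + b) := by
  rw [V_iff] at *
  intro n hn
  rw [map_add, ha n hn, hb n hn, add_zero]

theorem V_sub {k : ℕ} {a b : MvPowerSeries τ ℂ} (ha : V k a) (hb : V k b) : V k (a - b) := by
  rw [V_iff] at *
  intro n hn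
  rw [map_sub, ha n hn, hb n hn, sub_zero]

theorem V_neg {k : ℕ} {a : MvPowerSeries τ ℂ} (ha : V k a) : V k (-a) := by
  rw [V_iff] at *
  intro n hn
  rw [map_neg, ha n hn, neg_zero]

theorem V_sum {ι : Type} (s : Finset ι) {k : ℕ} {a : ι → MvPowerSeries τ ℂ}
    (ha : ∀ i ∈ s, V k (a i)) : V k (∑ i ∈ s, a i) := by
  rw [V_iff]
  intro n hn
  rw [map_sum]
  exact Finset.sum_eq_zero fun i hi => V_iff.1 (ha i hi) n hn

theorem V_mul {i j : ℕ} {a b : MvPowerSeries τ ℂ} (ha : V i a) (hb : V j b) : V (i + j) (a * b) := by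
  refine le_trans ?_ le_order_mul
  push_cast
  exact add_le_add ha hb

theorem V_mul_left {k : ℕ} (a : MvPowerSeries τ ℂ) {b : MvPowerSeries τ ℂ} (hb : V k b) :
    V k (a * b) := by
  have h := V_mul (i := 0) (a := a) (by simp [V]) hb
  rwa [zero_add] at h

theorem V_mono {k l : ℕ} (h : k ≤ l) {a : MvPowerSeries τ ℂ} (ha : V l a) : V k a :=
  le_trans (by exact_mod_cast h) ha

theorem V_one {a : MvPowerSeries τ ℂ} : V 1 a ↔ constantCoeff a = 0 := by
  rw [V_iff, ← coeff_zero_eq_constantCoeff_apply]
  constructor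
  · intro h
    exact h 0 (by simp)
  · intro h n hn
    have : n = 0 := by
      rw [← Finsupp.degree_eq_zero_iff]
      omega
    rw [this, h]

theorem eq_of_V {a b : MvPowerSeries τ ℂ} (h : ∀ k, V k (a - b)) : a = b := by
  ext n
  have := V_iff.1 (h (n.degree + 1)) n (by omega)
  rwa [map_sub, sub_eq_zero] at this

theorem cc_aeval' (a : σ → MvPowerSeries τ ℂ) (p : σ → ℂ) (ha : ∀ i, constantCoeff (a i) = p i)
    (φ : MvPolynomial σ ℂ) : constantCoeff (MvPolynomial.aeval a φ) = MvPolynomial.eval p φ := by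
  have h : ((constantCoeff (σ := τ) (R := ℂ)).comp
      (MvPolynomial.aeval a : MvPolynomial σ ℂ →ₐ[ℂ] MvPowerSeries τ ℂ).toRingHom) =
      MvPolynomial.eval p := by
    refine MvPolynomial.ringHom_ext (fun r => ?_) fun i => ?_
    · have h1 : (MvPolynomial.aeval a : MvPolynomial σ ℂ →ₐ[ℂ] MvPowerSeries τ ℂ)
          (MvPolynomial.C r) = C r := MvPolynomial.aeval_C _ _
      rw [RingHom.comp_apply, MvPolynomial.eval_C]
      change constantCoeff (MvPolynomial.aeval a (MvPolynomial.C r)) = r
      rw [h1, constantCoeff_C]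
    · rw [RingHom.comp_apply, MvPolynomial.eval_X]
      change constantCoeff (MvPolynomial.aeval a (MvPolynomial.X i)) = p i
      rw [MvPolynomial.aeval_X, ha]
  exact RingHom.congr_fun h φ

/-- the linearization -/
theorem taylor (k : ℕ) (hk : 1 ≤ k) (a b : σ → MvPowerSeries τ ℂ) (p : σ → ℂ)
    (ha : ∀ i, constantCoeff (a i) = p i) (hb : ∀ i, constantCoeff (b i) = p i)
    (hab : ∀ i, V k (a i - b i)) (φ : MvPolynomial σ ℂ) :
    V (k + 1) (MvPolynomial.aeval a φ - MvPolynomial.aeval b φ -
      ∑ i, C (MvPolynomial.eval p (MvPolynomial.pderiv i φ)) * (a i - b i)) := by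
  induction φ using MvPolynomial.induction_on with
  | C r =>
    have h1 : ∑ i, C (MvPolynomial.eval p (MvPolynomial.pderiv i (MvPolynomial.C r))) * (a i - b i)
        = (0 : MvPowerSeries τ ℂ) := by
      refine Finset.sum_eq_zero fun i _ => ?_
      rw [MvPolynomial.pderiv_C, map_zero, map_zero, zero_mul]
    rw [h1, MvPolynomial.aeval_C, MvPolynomial.aeval_C, sub_self, sub_zero]
    exact V_zero _
  | add φ ψ h1 h2 =>
    have h3 := V_add h1 h2
    convert h3 using 1
    have h4 : ∑ i, C (MvPolynomial.eval p (MvPolynomial.pderiv i (φ + ψ))) * (a i - b i)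
        = ∑ i, C (MvPolynomial.eval p (MvPolynomial.pderiv i φ)) * (a i - b i) +
          ∑ i, C (MvPolynomial.eval p (MvPolynomial.pderiv i ψ)) * (a i - b i) := by
      rw [← Finset.sum_add_distrib]
      refine Finset.sum_congr rfl fun i _ => ?_
      rw [map_add, map_add, map_add, add_mul]
    rw [h4, map_add, map_add]
    ring
  | mul_X φ j h1 =>
    have hε : V 1 (a j - C (p j)) := by
      rw [V_one, map_sub, ha, constantCoeff_C, sub_self]
    have hφ : V 1 (MvPolynomial.aeval b φ - C (MvPolynomial.eval p φ)) := by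
      rw [V_one, map_sub, cc_aeval' b p hb, constantCoeff_C, sub_self]
    have h2 : V (k + 1) ((MvPolynomial.aeval a φ - MvPolynomial.aeval b φ -
        ∑ i, C (MvPolynomial.eval p (MvPolynomial.pderiv i φ)) * (a i - b i)) * a j) := by
      rw [mul_comm]
      exact V_mul_left _ h1
    have h3 : V (k + 1) ((∑ i, C (MvPolynomial.eval p (MvPolynomial.pderiv i φ)) * (a i - b i)) *
        (a j - C (p j))) :=
      V_mul (V_sum _ fun i _ => V_mul_left _ (hab i)) hε
    have h4 : V (k + 1) ((a j - b j) * (MvPolynomial.aeval b φ - C (MvPolynomial.eval p φ))) :=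
      V_mul (hab j) hφ
    have h5 := V_add (V_add h2 h3) h4
    convert h5 using 1
    have h6 : ∑ i, C (MvPolynomial.eval p (MvPolynomial.pderiv i (φ * MvPolynomial.X j))) *
        (a i - b i) =
        (∑ i, C (MvPolynomial.eval p (MvPolynomial.pderiv i φ)) * (a i - b i)) * C (p j) +
          C (MvPolynomial.eval p φ) * (a j - b j) := by
      rw [Finset.sum_mul]
      have h7 : ∀ i, C (MvPolynomial.eval p (MvPolynomial.pderiv i (φ * MvPolynomial.X j))) *
          (a i - b i) = C (MvPolynomial.eval p (MvPolynomial.pderiv i φ)) * (a i - b i) * C (p j) +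
            (if i = j then C (MvPolynomial.eval p φ) * (a i - b i) else (0 : MvPowerSeries τ ℂ)) := by
        intro i
        rw [Derivation.leibniz, MvPolynomial.pderiv_X]
        simp only [smul_eq_mul, map_add, map_mul, MvPolynomial.eval_X]
        by_cases h : i = j
        · subst h
          simp only [if_true, Pi.single_eq_same, map_one]
          ring
        · rw [if_neg h, Pi.single_eq_of_ne (Ne.symm h)]
          simp only [map_zero]
          ring
      rw [Finset.sum_congr rfl fun i _ => h7 i, Finset.sum_add_distrib, Finset.sum_ite_eq',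
        if_pos (Finset.mem_univ j)]
    rw [h6, map_mul, map_mul, MvPolynomial.aeval_X, MvPolynomial.aeval_X]
    ring

/-- the iteration -/
noncomputable def iter (φ : σ → MvPolynomial σ ℂ) (p : σ → ℂ) (W : Matrix σ σ ℂ)
    (η : σ → MvPowerSeries τ ℂ) : ℕ → σ → MvPowerSeries τ ℂ
  | 0 => fun i => C (p i)
  | k + 1 => fun i => iter φ p W η k i +
      ∑ s, C (W s i) * (η s - MvPolynomial.aeval (iter φ p W η k) (φ s))

/-- **The formal inverse function theorem.** -/
theorem exists_inverse (φ : σ → MvPolynomial σ ℂ) (p : σ → ℂ)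
    (hφ : ∀ s, MvPolynomial.eval p (φ s) = 0)
    (hM : (Matrix.of fun i s => MvPolynomial.eval p (MvPolynomial.pderiv i (φ s))).det ≠ 0)
    (η : σ → MvPowerSeries τ ℂ) (hη : ∀ s, constantCoeff (η s) = 0) :
    ∃ ξ : σ → MvPowerSeries τ ℂ, (∀ i, constantCoeff (ξ i) = p i) ∧
      ∀ s, MvPolynomial.aeval ξ (φ s) = η s := by
  set M : Matrix σ σ ℂ := Matrix.of fun i s => MvPolynomial.eval p (MvPolynomial.pderiv i (φ s))
    with hMdef
  have hWM : M⁻¹ * M = 1 := Matrix.nonsing_inv_mul _ (isUnit_iff_ne_zero.2 hM)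
  set x := iter φ p M⁻¹ η with hx
  have hstep : ∀ k i, x (k + 1) i - x k i =
      ∑ s, C (M⁻¹ s i) * (η s - MvPolynomial.aeval (x k) (φ s)) := by
    intro k i
    rw [hx]
    change iter φ p M⁻¹ η k i + _ - iter φ p M⁻¹ η k i = _
    rw [add_sub_cancel_left]
  have key : ∀ k, (∀ i, constantCoeff (x k i) = p i) ∧
      ∀ s, V (k + 1) (MvPolynomial.aeval (x k) (φ s) - η s) := by
    intro k
    induction k with
    | zero =>
      have h0 : ∀ i, constantCoeff (x 0 i) = p i := fun i => by
        rw [hx]
        change constantCoeff (C (p i)) = p i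
        rw [constantCoeff_C]
      refine ⟨h0, fun s => ?_⟩
      rw [V_one, map_sub, cc_aeval' _ p h0, hφ, hη, sub_zero]
    | succ k ih =>
      obtain ⟨ih1, ih2⟩ := ih
      have hε : ∀ i, V (k + 1) (x (k + 1) i - x k i) := by
        intro i
        rw [hstep]
        refine V_sum _ fun s _ => V_mul_left _ ?_
        have := V_neg (ih2 s)
        rwa [neg_sub] at this
      have h0 : ∀ i, constantCoeff (x (k + 1) i) = p i := by
        intro i
        have h1 := V_one.1 (V_mono (by omega) (hε i))
        rw [map_sub, ih1, sub_eq_zero] at h1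
        exact h1
      refine ⟨h0, fun s => ?_⟩
      have h1 := taylor (k + 1) (by omega) (x (k + 1)) (x k) p h0 ih1 hε (φ s)
      have h2 : ∑ i, C (MvPolynomial.eval p (MvPolynomial.pderiv i (φ s))) * (x (k + 1) i - x k i)
          = η s - MvPolynomial.aeval (x k) (φ s) := by
        have h3 : ∀ i, C (MvPolynomial.eval p (MvPolynomial.pderiv i (φ s))) *
            (x (k + 1) i - x k i) = ∑ s', C (M⁻¹ s' i * M i s) *
              (η s' - MvPolynomial.aeval (x k) (φ s')) := by
          intro i
          rw [hstep, Finset.mul_sum]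
          refine Finset.sum_congr rfl fun s' _ => ?_
          rw [map_mul]
          have : M i s = MvPolynomial.eval p (MvPolynomial.pderiv i (φ s)) := rfl
          rw [this]
          ring
        rw [Finset.sum_congr rfl fun i _ => h3 i, Finset.sum_comm]
        have h4 : ∀ s', ∑ i, C (M⁻¹ s' i * M i s) *
            (η s' - MvPolynomial.aeval (x k) (φ s')) =
            if s' = s then η s' - MvPolynomial.aeval (x k) (φ s') else 0 := by
          intro s'
          rw [← Finset.sum_mul, ← map_sum]
          have h5 := congrFun (congrFun hWM s') s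
          rw [Matrix.mul_apply, Matrix.one_apply] at h5
          rw [h5]
          split_ifs
          · rw [map_one, one_mul]
          · rw [map_zero, zero_mul]
        rw [Finset.sum_congr rfl fun s' _ => h4 s', Finset.sum_ite_eq', if_pos (Finset.mem_univ s)]
      rw [h2] at h1
      convert h1 using 1
      ring
  have hε : ∀ k i, V (k + 1) (x (k + 1) i - x k i) := by
    intro k i
    rw [hstep]
    refine V_sum _ fun s _ => V_mul_left _ ?_
    have := V_neg ((key k).2 s)
    rwa [neg_sub] at this
  have hcoeff : ∀ (i : σ) (n : τ →₀ ℕ) (k : ℕ), n.degree ≤ k →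
      coeff n (x k i) = coeff n (x n.degree i) := by
    intro i n k hk
    induction k, hk using Nat.le_induction with
    | base => rfl
    | succ k hk ih =>
      have h1 := V_iff.1 (hε k i) n (by omega)
      rw [map_sub, sub_eq_zero] at h1
      rw [h1, ih]
  let ξ : σ → MvPowerSeries τ ℂ := fun i n => coeff n (x n.degree i)
  have hξ : ∀ i n, coeff n (ξ i) = coeff n (x n.degree i) := fun i n => rfl
  have hlim : ∀ k i, V (k + 1) (ξ i - x k i) := by
    intro k i
    rw [V_iff]
    intro n hn
    rw [map_sub, hξ, hcoeff i n k (by omega), sub_self]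
  have h0 : ∀ i, constantCoeff (ξ i) = p i := by
    intro i
    have h1 := V_one.1 (V_mono (by omega) (hlim 0 i))
    rw [map_sub, (key 0).1, sub_eq_zero] at h1
    exact h1
  refine ⟨ξ, h0, fun s => eq_of_V fun k => ?_⟩
  have h1 := taylor (k + 1) (by omega) ξ (x k) p h0 (key k).1 (hlim k) (φ s)
  have h2 : V (k + 1) (∑ i, C (MvPolynomial.eval p (MvPolynomial.pderiv i (φ s))) *
      (ξ i - x k i)) := V_sum _ fun i _ => V_mul_left _ (hlim k i)
  have h3 := V_add (V_add (V_mono (by omega : k + 1 ≤ k + 1 + 1) h1) h2) ((key k).2 s)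
  refine V_mono (Nat.le_succ k) ?_
  convert h3 using 1
  ring

end Pool.Agent.R852.SC
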