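import Pool.Agent.R852.SC.Cone

set_option autoImplicit false
set_option linter.unusedSectionVars false
set_option linter.unusedVariables false

/-! # The Jacobian condition for ideals of forms which contain forms of smaller degree -/

namespace Pool.Agent.R852.SC

open MvPolynomial

variable {σ : Type} [Fintype σ] [DecidableEq σ]

/-- the products of the variables and a form `q ≠ 0` are algebraically independent -/
theorem det_mul_ne (q : MvPolynomial σ ℂ) (d : ℕ) (hq : q.IsHomogeneous d) (h0 : q ≠ 0) :
    (Matrix.of fun i s => pderiv i (X s * q)).det ≠ 0 := by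
  obtain ⟨p, hp⟩ := exists_eval_ne q h0
  intro h
  have h1 : eval p (Matrix.of fun i s => pderiv i (X s * q)).det = 0 := by rw [h, map_zero]
  rw [RingHom.map_det] at h1
  set v : σ → ℂ := fun i => eval p (pderiv i q) / eval p q with hv
  have h2 : (eval p).mapMatrix (Matrix.of fun i s => pderiv i (X s * q)) =
      (eval p q) • (1 + Matrix.replicateCol Unit v * Matrix.replicateRow Unit p) := by
    ext1 i s
    rw [RingHom.mapMatrix_apply, Matrix.map_apply, Matrix.of_apply, Derivation.leibniz, pderiv_X,
      Matrix.smul_apply, Matrix.add_apply, Matrix.one_apply, Matrix.mul_apply,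
      Fintype.sum_unique, Matrix.replicateCol_apply, Matrix.replicateRow_apply]
    simp only [smul_eq_mul, map_add, map_mul, eval_X]
    by_cases his : i = s
    · subst his
      rw [if_pos rfl, Pi.single_eq_same, map_one]
      have h3 : v i * eval p q = eval p (pderiv i q) := by
        rw [hv]; exact div_mul_cancel₀ _ hp
      linear_combination (-(p i)) * h3
    · rw [if_neg his, Pi.single_eq_of_ne (Ne.symm his), map_zero]
      have h3 : v i * eval p q = eval p (pderiv i q) := by
        rw [hv]; exact div_mul_cancel₀ _ hp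
      linear_combination (-(p s)) * h3
  have h4 : p ⬝ᵥ v = d := by
    have h5 := congrArg (eval p) hq.sum_X_mul_pderiv
    rw [map_sum] at h5
    simp only [map_mul, eval_X, nsmul_eq_mul, map_natCast] at h5
    have h6 : p ⬝ᵥ v = (∑ i, p i * eval p (pderiv i q)) / eval p q := by
      rw [dotProduct, Finset.sum_div]
      exact Finset.sum_congr rfl fun i _ => by rw [hv, mul_div_assoc]
    rw [h6, h5, mul_div_assoc, div_self hp, mul_one]
  rw [h2, Matrix.det_smul, Matrix.det_one_add_replicateCol_mul_replicateRow, h4] at h1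
  have h7 : (1 + (d : ℂ)) ≠ 0 := by
    rw [← Nat.cast_one, ← Nat.cast_add, Nat.cast_ne_zero]
    omega
  exact (mul_ne_zero (pow_ne_zero _ hp) h7) h1

/-- the Jacobian condition for elements of the span -/
theorem jac_of_span {κ : Type} (g : κ → MvPolynomial σ ℂ) (w : σ → MvPolynomial σ ℂ)
    (hw : ∀ s, w s ∈ Submodule.span ℂ (Set.range g))
    (hJ : (Matrix.of fun i s => pderiv i (w s)).det ≠ 0) :
    ∃ e : σ → κ, (Matrix.of fun i s => pderiv i (g (e s))).det ≠ 0 := by
  obtain ⟨p, hp⟩ := exists_eval_ne _ hJ
  rw [RingHom.map_det] at hp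
  set D : MvPolynomial σ ℂ →ₗ[ℂ] (σ → ℂ) :=
    LinearMap.pi fun i => (aeval p : MvPolynomial σ ℂ →ₐ[ℂ] ℂ).toLinearMap ∘ₗ
      (pderiv i : Derivation ℂ (MvPolynomial σ ℂ) (MvPolynomial σ ℂ)).toLinearMap with hD
  have hDa : ∀ x i, D x i = eval p (pderiv i x) := fun x i => by
    rw [hD, LinearMap.pi_apply]
    rfl
  have hli : LinearIndependent ℂ fun s => D (w s) := by
    have h1 := Matrix.linearIndependent_cols_of_det_ne_zero hp
    have h2 : (fun s => D (w s)) = ((eval p).mapMatrix (Matrix.of fun i s => pderiv i (w s))).col := by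
      funext s i
      rw [hDa]
      rfl
    rw [h2]
    exact h1
  have hspan : Submodule.span ℂ (Set.range fun j => D (g j)) = ⊤ := by
    rw [eq_top_iff, ← hli.span_eq_top_of_card_eq_finrank' (by rw [Module.finrank_fintype_fun_eq_card]),
      Submodule.span_le]
    rintro _ ⟨s, rfl⟩
    have h1 : D (w s) ∈ Submodule.map D (Submodule.span ℂ (Set.range g)) :=
      Submodule.mem_map_of_mem (hw s)
    rw [Submodule.map_span, ← Set.range_comp] at h1
    exact h1
  obtain ⟨f, hf, _, hfi⟩ := Submodule.exists_fun_fin_finrank_span_eq ℂ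
    (Set.range fun j => D (g j))
  have hfr : Module.finrank ℂ (Submodule.span ℂ (Set.range fun j => D (g j))) = Fintype.card σ := by
    rw [hspan, finrank_top, Module.finrank_fintype_fun_eq_card]
  have e0 : σ ≃ Fin (Module.finrank ℂ (Submodule.span ℂ (Set.range fun j => D (g j)))) :=
    Fintype.equivOfCardEq (by rw [Fintype.card_fin, hfr])
  choose e he using fun s => hf (e0 s)
  refine ⟨e, fun h => ?_⟩
  have h1 : LinearIndependent ℂ ((eval p).mapMatrix
      (Matrix.of fun i s => pderiv i (g (e s)))).col := by
    have h2 : ((eval p).mapMatrix (Matrix.of fun i s => pderiv i (g (e s)))).col = f ∘ e0 := by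
      funext s i
      rw [Function.comp_apply, ← he s]
      change _ = D (g (e s)) i
      rw [hDa]
      rfl
    rw [h2]
    exact hfi.comp _ e0.injective
  have h3 := Matrix.linearIndependent_cols_iff_isUnit.1 h1
  rw [Matrix.isUnit_iff_isUnit_det, ← RingHom.map_det, h, map_zero] at h3
  exact not_isUnit_zero h3

/-- the Jacobian condition, if the products of the variables and some form `q ≠ 0` are in the span of
the forms -/
theorem jac_of_mul {κ : Type} (g : κ → MvPolynomial σ ℂ) (q : MvPolynomial σ ℂ) (d : ℕ)
    (hq : q.IsHomogeneous d) (h0 : q ≠ 0)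
    (h : ∀ s, X s * q ∈ Submodule.span ℂ (Set.range g)) :
    ∃ e : σ → κ, (Matrix.of fun i s => pderiv i (g (e s))).det ≠ 0 :=
  jac_of_span g (fun s => X s * q) h (det_mul_ne q d hq h0)

end Pool.Agent.R852.SC
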