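import Pool.Agent.R852.SC.Cone

set_option autoImplicit false
set_option linter.unusedSectionVars false
set_option linter.unusedVariables false

/-! # The roots for homogeneous ideals with smooth zero schemes in the projective space -/

namespace Pool.Agent.R852.SC

open MvPolynomial Pool.Agent.W574.SM Pool.Agent.W574.LM Pool.Agent.W574.HS
  Pool.Agent.H628R4.TP Pool.Agent.TH187.SA Pool.Agent.Y231.RF Pool.Agent.TH192.DT

section scale

variable {σ τ : Type} [Fintype σ] [DecidableEq σ] [Fintype τ] [DecidableEq τ] {κ : τ → Type}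
  [∀ t, Fintype (κ t)] [∀ t, DecidableEq (κ t)]

/-- the scaling -/
noncomputable def scl (r : ℂ) : MvPolynomial σ ℂ →ₐ[ℂ] MvPolynomial σ ℂ :=
  aeval fun i => C r * X i

theorem eval_scl (r : ℂ) (p : σ → ℂ) (q : MvPolynomial σ ℂ) :
    eval p (scl r q) = eval (fun i => r * p i) q := by
  have h : ((eval p).comp (scl r : MvPolynomial σ ℂ →ₐ[ℂ] MvPolynomial σ ℂ).toRingHom) =
      eval fun i => r * p i := by
    refine ringHom_ext (fun s => ?_) fun i => ?_
    · rw [RingHom.comp_apply, eval_C]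
      change eval p (scl r (C s)) = s
      have h1 : scl r (C s : MvPolynomial σ ℂ) = C s := aeval_C _ _
      rw [h1, eval_C]
    · rw [RingHom.comp_apply, eval_X]
      change eval p (scl r (X i)) = r * p i
      rw [scl, aeval_X, map_mul, eval_C, eval_X]
  exact RingHom.congr_fun h q

theorem scl_scl (r s : ℂ) (q : MvPolynomial σ ℂ) : scl r (scl s q) = scl (s * r) q := by
  have h : (scl r).comp (scl s) = (scl (s * r) : MvPolynomial σ ℂ →ₐ[ℂ] MvPolynomial σ ℂ) := by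
    ext1 i
    rw [AlgHom.comp_apply]
    have h1 : scl r (C s : MvPolynomial σ ℂ) = C s := aeval_C _ _
    have h2 : scl s (X i : MvPolynomial σ ℂ) = C s * X i := aeval_X _ _
    have h3 : scl r (X i : MvPolynomial σ ℂ) = C r * X i := aeval_X _ _
    have h4 : scl (s * r) (X i : MvPolynomial σ ℂ) = C (s * r) * X i := aeval_X _ _
    rw [h2, map_mul, h1, h3, h4, map_mul]
    ring
  exact AlgHom.congr_fun h q

theorem scl_one (q : MvPolynomial σ ℂ) : scl 1 q = q := by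
  have h : (scl 1 : MvPolynomial σ ℂ →ₐ[ℂ] MvPolynomial σ ℂ) = AlgHom.id ℂ _ := by
    ext1 i
    have h4 : scl 1 (X i : MvPolynomial σ ℂ) = C 1 * X i := aeval_X _ _
    rw [h4, map_one, one_mul, AlgHom.id_apply]
  exact AlgHom.congr_fun h q

theorem pderiv_scl (r : ℂ) (i : σ) (q : MvPolynomial σ ℂ) :
    pderiv i (scl r q) = C r * scl r (pderiv i q) := by
  induction q using MvPolynomial.induction_on with
  | C s =>
    have h1 : scl r (C s : MvPolynomial σ ℂ) = C s := aeval_C _ _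
    rw [h1, pderiv_C, map_zero, mul_zero]
  | add p q hp hq => rw [map_add, map_add, hp, hq, map_add, map_add, mul_add]
  | mul_X p k hp =>
    have h3 : scl r (X k : MvPolynomial σ ℂ) = C r * X k := aeval_X _ _
    rw [map_mul, Derivation.leibniz, hp, h3, Derivation.leibniz, pderiv_C, smul_zero, add_zero,
      Derivation.leibniz]
    simp only [smul_eq_mul, map_add, map_mul, h3, pderiv_X]
    by_cases h : i = k
    · subst h
      simp only [Pi.single_eq_same, map_one]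
      ring
    · rw [Pi.single_eq_of_ne (Ne.symm h)]
      simp only [map_zero]
      ring

theorem scl_homog (r : ℂ) (q : MvPolynomial σ ℂ) (d : ℕ) (hq : q.IsHomogeneous d) :
    scl r q = C (r ^ d) * q := by
  have h := Pool.Agent.W574.CN.aeval_mul_homog (fun i : σ => (X i : MvPolynomial σ ℂ)) (C r) q d hq
  rw [scl, h, aeval_X_left_apply, map_pow]

/-- the condition at the multiples of a point -/
theorem PowersOfSmooth.scale {g : (t : τ) → κ t → MvPolynomial σ ℂ} {c : ℕ} {m : τ → ℕ}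
    {p : σ → ℂ} (δ : τ → ℕ) (hg : ∀ t j, (g t j).IsHomogeneous (δ t))
    (hp : PowersOfSmooth g c m p) (r : ℂ) (hr : r ≠ 0) :
    PowersOfSmooth g c m fun i => r * p i := by
  obtain ⟨h, N, u, hdet, hN, hNc, hNp, hu, hI⟩ := hp
  set θ : MvPolynomial σ ℂ →ₐ[ℂ] MvPolynomial σ ℂ := scl r⁻¹ with hθ
  have hev : ∀ q, eval (fun i => r * p i) (θ q) = eval p q := by
    intro q
    rw [hθ, eval_scl]
    congr 1
    refine congrArg _ (funext fun i => ?_)
    rw [← mul_assoc, inv_mul_cancel₀ hr, one_mul]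
  have hsurj : Function.Surjective θ.toRingHom := by
    intro q
    refine ⟨scl r q, ?_⟩
    change scl r⁻¹ (scl r q) = q
    rw [scl_scl, mul_inv_cancel₀ hr, scl_one]
  have hmapJ : ∀ k : ℕ, Ideal.map θ.toRingHom (Ideal.span (h '' N) ^ k) =
      Ideal.span ((fun s => θ (h s)) '' N) ^ k := by
    intro k
    rw [Ideal.map_pow, Ideal.map_span, Set.image_image]
    rfl
  refine ⟨fun s => θ (h s), N, θ u, ?_, hN, hNc, fun s hs => by rw [hev]; exact hNp s hs,
    by rw [hev]; exact hu, fun t => ⟨fun j => ?_, fun x hx => ?_⟩⟩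
  · have h1 : (Matrix.of fun i s => eval (fun i => r * p i) (pderiv i (θ (h s)))) =
        r⁻¹ • Matrix.of fun i s => eval p (pderiv i (h s)) := by
      ext1 i s
      rw [Matrix.smul_apply, Matrix.of_apply, Matrix.of_apply, hθ, pderiv_scl, map_mul, eval_C,
        smul_eq_mul]
      congr 1
      exact hev _
    rw [h1, Matrix.det_smul]
    exact mul_ne_zero (pow_ne_zero _ (inv_ne_zero hr)) hdet
  · rw [← hmapJ]
    have h1 := Ideal.mem_map_of_mem θ.toRingHom ((hI t).1 j)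
    have h2 : θ.toRingHom (u * g t j) = C ((r⁻¹) ^ δ t) * (θ u * g t j) := by
      change θ (u * g t j) = _
      rw [map_mul, hθ, scl_homog r⁻¹ (g t j) (δ t) (hg t j)]
      ring
    rw [h2] at h1
    have h3 := Ideal.mul_mem_left _ (C (r ^ δ t)) h1
    rw [← mul_assoc, ← map_mul, ← mul_pow, mul_inv_cancel₀ hr, one_pow, map_one, one_mul] at h3
    exact h3
  · rw [← hmapJ] at hx
    obtain ⟨y, hy, rfl⟩ := (Ideal.mem_map_iff_of_surjective _ hsurj).1 hx
    have h1 := Ideal.mem_map_of_mem θ.toRingHom ((hI t).2 y hy)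
    rw [map_mul, Ideal.map_span] at h1
    have h2 : Ideal.span (θ.toRingHom '' Set.range (g t)) ≤ Ideal.span (Set.range (g t)) := by
      rw [Ideal.span_le]
      rintro _ ⟨_, ⟨j, rfl⟩, rfl⟩
      change θ (g t j) ∈ Ideal.span (Set.range (g t))
      rw [hθ, scl_homog r⁻¹ (g t j) (δ t) (hg t j)]
      exact Ideal.mul_mem_left _ _ (Ideal.subset_span ⟨j, rfl⟩)
    exact h2 h1

end scale

variable {σ T I : Type} [Fintype σ] [DecidableEq σ] [Fintype T] [DecidableEq T]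
  {κ : T → Type} [∀ t, Fintype (κ t)] [∀ t, DecidableEq (κ t)]

/-- **The roots of the components.** -/
theorem ideal_comp (g : (t : T) → κ t → MvPolynomial σ ℂ) (δ : T → ℕ) (hδ : ∀ t, 0 < δ t)
    (hg : ∀ t j, (g t j).IsHomogeneous (δ t)) (hg0 : ∀ t, ∃ j, g t j ≠ 0) (a : T → ℕ)
    (hJ : ∃ t, a t ≠ 0 ∧ ∃ e : σ → κ t, (Matrix.of fun i s => pderiv i (g t (e s))).det ≠ 0)
    (c : I → ℕ) (m : I → T → ℕ) (p : I → σ → ℂ) (hp : ∀ i, PowersOfSmooth g (c i) (m i) (p i))
    (b : Polynomial ℂ) (H : MvPolynomial σ ℂ) (hH : constantCoeff H ≠ 0)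
    (hb : IsLocEq H (prodFam fun q : Σ t, Fin (a t) => g q.1) b) (o : Option I)
    (ho : 0 < ∑ t, a t * o.elim δ m t) :
    b.eval (-((o.elim (Fintype.card σ) c : ℕ) : ℂ) / (∑ t, a t * o.elim δ m t : ℕ)) = 0 := by
  have fin : ∀ (E : Chart g), E.IsRees (fun t => a t ≠ 0) →
      MvPowerSeries.constantCoeff (aeval E.ξ H) ≠ 0 → E.k + 1 = o.elim (Fintype.card σ) c →
      E.m = o.elim δ m →
      b.eval (-((o.elim (Fintype.card σ) c : ℕ) : ℂ) / (∑ t, a t * o.elim δ m t : ℕ)) = 0 := by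
    intro E hR hc hk hm
    have h1 := rees_prod a g b H hb E hR hc 0 (by rw [Chart.mul, hm]; exact ho) 1
      ⟨1, by rw [map_one]; exact one_ne_zero, by rw [map_one, pow_zero, one_mul]⟩
    rw [Nat.cast_zero, add_zero, Chart.mul, hm] at h1
    rw [← hk]
    push_cast at h1 ⊢
    exact h1
  rcases o with _ | i
  · obtain ⟨t0, ht0, e, he⟩ := hJ
    obtain ⟨E, hk, hm, hR, hc⟩ := cone_chart g δ hδ hg hg0 (fun t => a t ≠ 0) t0 ht0 e he
    exact fin E hR (hc H hH) hk hm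
  · obtain ⟨r, hr, hHr⟩ := exists_scale H hH (p i)
    obtain ⟨t, _, ht⟩ := Finset.exists_ne_zero_of_sum_ne_zero (Nat.pos_iff_ne_zero.1 ho)
    obtain ⟨E, hk, hm, hR, hc⟩ := smooth_chart g (c i) (m i) (fun j => r * p i j)
      ((hp i).scale δ hg r hr) (fun t => a t ≠ 0)
      ⟨t, left_ne_zero_of_mul ht, Nat.pos_of_ne_zero (right_ne_zero_of_mul ht)⟩
    exact fin E hR (hc H hHr) hk hm

theorem nuC_pos [Nonempty σ] (g : (t : T) → κ t → MvPolynomial σ ℂ) (c : I → ℕ) (m : I → T → ℕ)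
    (p : I → σ → ℂ) (hp : ∀ i, PowersOfSmooth g (c i) (m i) (p i)) (x : Option I ⊕ T) :
    0 < nuC (Fintype.card σ) c T x := by
  rcases x with (_ | i) | t
  · exact Fintype.card_pos
  · obtain ⟨h, N, u, _, hN, hNc, _⟩ := hp i
    change 0 < c i
    rw [← hNc]
    exact Finset.card_pos.2 hN
  · exact one_pos

/-- **The roots for the products of powers of forms.** -/
theorem pow_comp (g : (t : T) → κ t → MvPolynomial σ ℂ) (δ : T → ℕ) (hδ : ∀ t, 0 < δ t)
    (hg : ∀ t j, (g t j).IsHomogeneous (δ t)) (hg0 : ∀ t, ∃ j, g t j ≠ 0) (a : T → ℕ)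
    (hJ : ∃ t, a t ≠ 0 ∧ ∃ e : σ → κ t, (Matrix.of fun i s => pderiv i (g t (e s))).det ≠ 0)
    (c : I → ℕ) (m : I → T → ℕ) (p : I → σ → ℂ) (hp : ∀ i, PowersOfSmooth g (c i) (m i) (p i))
    (b : Polynomial ℂ) (hb : PowData a g b) (x : Option I ⊕ T) (hx : 0 < mulC δ m a x) :
    b.eval (-(nuC (Fintype.card σ) c T x : ℂ) / mulC δ m a x) = 0 := by
  rcases x with o | t
  · obtain ⟨t0, ht0, _⟩ := id hJ
    obtain ⟨H, hH, hHb⟩ := hb.ideal ⟨t0, ht0⟩
    exact ideal_comp g δ hδ hg hg0 a hJ c m p hp b H hH hHb o hx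
  · have h3 := hb.strict t 0 hx
    rw [Nat.cast_zero, add_zero] at h3
    change b.eval (-((1 : ℕ) : ℂ) / a t) = 0
    rw [Nat.cast_one]
    exact h3

/-- there are variables -/
theorem nonempty_of (g : (t : T) → κ t → MvPolynomial σ ℂ) (δ : T → ℕ) (hδ : ∀ t, 0 < δ t)
    (hg : ∀ t j, (g t j).IsHomogeneous (δ t)) (hg0 : ∀ t, ∃ j, g t j ≠ 0) [Nonempty T] :
    Nonempty σ := by
  by_contra h
  rw [not_nonempty_iff] at h
  obtain ⟨t⟩ := (inferInstance : Nonempty T)
  obtain ⟨j, hj⟩ := hg0 t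
  apply hj
  rw [eq_C_of_isEmpty (g t j)]
  by_contra h0
  have h1 : coeff 0 (g t j) ≠ 0 := fun h2 => h0 (by rw [h2, C_0])
  have h2 := hg t j h1
  simp at h2
  have := hδ t
  omega

theorem top_main [Fintype I] (g : (t : T) → κ t → MvPolynomial σ ℂ) (δ : T → ℕ) (hδ : ∀ t, 0 < δ t)
    (hg : ∀ t j, (g t j).IsHomogeneous (δ t)) (hg0 : ∀ t, ∃ j, g t j ≠ 0) (a : T → ℕ)
    (hJ : ∃ t, a t ≠ 0 ∧ ∃ e : σ → κ t, (Matrix.of fun i s => pderiv i (g t (e s))).det ≠ 0)
    (c : I → ℕ) (m : I → T → ℕ) (p : I → σ → ℂ) (hp : ∀ i, PowersOfSmooth g (c i) (m i) (p i))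
    (χ : Finset (Option I ⊕ T) → ℤ) (s₀ : ℂ)
    (hs : (topZ (nuC (Fintype.card σ) c T) (mulC δ m a) χ).denom.eval s₀ = 0)
    (b : Polynomial ℂ) (hb : PowData a g b) : b.eval s₀ = 0 := by
  have : Nonempty T := ⟨hJ.choose⟩
  have := nonempty_of g δ hδ hg hg0
  obtain ⟨J, _, x, _, hN, rfl⟩ := Pool.Agent.Y228.RR.pole_topZ' _ _ χ
    (nuC_pos g c m p hp) s₀ hs
  exact pow_comp g δ hδ hg hg0 a hJ c m p hp b hb x hN

end Pool.Agent.R852.SC
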