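import Pool.Agent.R852.SC.Main
import Pool.Agent.Y230.RS.Fin

set_option autoImplicit false
set_option linter.unusedSectionVars false
set_option linter.unusedVariables false

/-! # Products of topological zeta functions with polynomials -/

namespace Pool.Agent.R852.SC

open Polynomial Pool.Agent.TH192.DT

theorem lin_factor (ν N : ℕ) (hN : 0 < N) :
    (C ((ν : ℕ) : ℂ) + C (N : ℂ) * X : ℂ[X]) = C (N : ℂ) * (X - C (-(ν : ℂ) / N)) := by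
  have h : (N : ℂ) ≠ 0 := Nat.cast_ne_zero.2 hN.ne'
  rw [mul_sub, ← C_mul, mul_div_cancel₀ _ h, C_neg, sub_neg_eq_add, add_comm]

theorem lin_dvd (ν N : ℕ) (hN : 0 < N) (b : ℂ[X]) (hb : b.eval (-(ν : ℂ) / N) = 0) :
    (C ((ν : ℕ) : ℂ) + C (N : ℂ) * X : ℂ[X]) ∣ b := by
  rw [lin_factor ν N hN]
  have h : IsUnit (C (N : ℂ)) := isUnit_C.2 (isUnit_iff_ne_zero.2 (Nat.cast_ne_zero.2 hN.ne'))
  exact (h.mul_left_dvd).2 (dvd_iff_isRoot.2 hb)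

theorem lin_coprime (ν N ν' N' : ℕ) (hN : 0 < N) (hN' : 0 < N') (h : ν * N' ≠ ν' * N) :
    IsCoprime (C ((ν : ℕ) : ℂ) + C (N : ℂ) * X : ℂ[X]) (C ((ν' : ℕ) : ℂ) + C (N' : ℂ) * X) := by
  rw [lin_factor ν N hN, lin_factor ν' N' hN']
  have h1 : IsUnit (C (N : ℂ)) := isUnit_C.2 (isUnit_iff_ne_zero.2 (Nat.cast_ne_zero.2 hN.ne'))
  have h2 : IsUnit (C (N' : ℂ)) := isUnit_C.2 (isUnit_iff_ne_zero.2 (Nat.cast_ne_zero.2 hN'.ne'))
  rw [isCoprime_mul_unit_left_left h1, isCoprime_mul_unit_left_right h2]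
  refine isCoprime_X_sub_C_of_isUnit_sub (isUnit_iff_ne_zero.2 fun h0 => h ?_)
  have hN0 : (N : ℂ) ≠ 0 := Nat.cast_ne_zero.2 hN.ne'
  have hN0' : (N' : ℂ) ≠ 0 := Nat.cast_ne_zero.2 hN'.ne'
  have h3 := sub_eq_zero.1 h0
  rw [div_eq_div_iff hN0 hN0'] at h3
  have h4 : (ν : ℂ) * N' = ν' * N := by linear_combination -h3
  exact_mod_cast h4

theorem topZ_mul {ι : Type} [Fintype ι] [DecidableEq ι] (ν N : ι → ℕ) (hν : ∀ i, 0 < ν i)
    (χ : Finset ι → ℤ) (b : ℂ[X]) (hb : ∀ i, 0 < N i → b.eval (-(ν i : ℂ) / N i) = 0)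
    (hd : ∀ J, χ J ≠ 0 → ∀ i ∈ J, ∀ j ∈ J, i ≠ j → 0 < N i → 0 < N j → ν i * N j ≠ ν j * N i) :
    ∃ P : ℂ[X], algebraMap ℂ[X] (RatFunc ℂ) b * topZ ν N χ = algebraMap ℂ[X] (RatFunc ℂ) P := by
  obtain ⟨P, hP⟩ := Pool.Agent.Y230.RS.zeta_mul N (fun i => ν i - 1) χ b (fun S hS => by
    refine Finset.prod_dvd_of_coprime ?_ ?_
    · intro i hi j hj hij
      have hi' := Finset.mem_filter.1 (Finset.mem_coe.1 hi)
      have hj' := Finset.mem_filter.1 (Finset.mem_coe.1 hj)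
      change IsCoprime (C ((ν i - 1 + 1 : ℕ) : ℂ) + C (N i : ℂ) * X)
        (C ((ν j - 1 + 1 : ℕ) : ℂ) + C (N j : ℂ) * X)
      rw [Nat.sub_add_cancel (hν i), Nat.sub_add_cancel (hν j)]
      exact lin_coprime _ _ _ _ hi'.2 hj'.2 (hd S hS i hi'.1 j hj'.1 hij hi'.2 hj'.2)
    · intro i hi
      have hi' := Finset.mem_filter.1 hi
      rw [Nat.sub_add_cancel (hν i)]
      exact lin_dvd _ _ hi'.2 b (hb i hi'.2))
  refine ⟨P, ?_⟩
  rw [← hP, topZ]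
  congr 1
  refine Finset.sum_congr rfl fun S _ => ?_
  congr 1
  · rw [map_intCast]
  · refine Finset.prod_congr rfl fun i _ => ?_
    rw [one_div]
    congr 1
    have h1 : ((ν i - 1 : ℕ) : RatFunc ℂ) + 1 = (ν i : RatFunc ℂ) := by
      rw [← Nat.cast_succ, Nat.succ_eq_add_one, Nat.sub_add_cancel (hν i)]
    rw [add_assoc, h1]

end Pool.Agent.R852.SC
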