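import Pool.Agent.R852.SC.Defs
import Pool.Agent.R852.SC.Inv
import Pool.Agent.Y228.RR.Top

set_option autoImplicit false
set_option linter.unusedSectionVars false
set_option linter.unusedVariables false

/-! # The charts of the blow-up of a smooth centre -/

namespace Pool.Agent.R852.SC

open MvPowerSeries Pool.Agent.W574.SM Pool.Agent.TH187.SA Pool.Agent.Y231.RF
  Pool.Agent.TH192.DT

variable {σ τ : Type} [Fintype σ] [DecidableEq σ] [Fintype τ] [DecidableEq τ] {κ : τ → Type}
  [∀ t, Fintype (κ t)] [∀ t, DecidableEq (κ t)]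

theorem dvd_of_mem_pow {A B : Type} [CommRing A] [CommRing B] (f : A →+* B) (J : Ideal A) (x : B)
    (h : ∀ y ∈ J, x ∣ f y) (m : ℕ) (y : A) (hy : y ∈ J ^ m) : x ^ m ∣ f y := by
  have h1 : J ≤ Ideal.comap f (Ideal.span {x}) := by
    intro y hy
    rw [Ideal.mem_comap, Ideal.mem_span_singleton]
    exact h y hy
  have h2 : J ^ m ≤ Ideal.comap f (Ideal.span {x} ^ m) :=
    (Ideal.pow_right_mono h1 m).trans (Ideal.le_comap_pow f m)
  have h3 := h2 hy
  rwa [Ideal.mem_comap, Ideal.span_singleton_pow, Ideal.mem_span_singleton] at h3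

/-- **The chart of the blow-up of a smooth centre.** -/
theorem smooth_chart (g : (t : τ) → κ t → MvPolynomial σ ℂ) (c : ℕ) (m : τ → ℕ) (p : σ → ℂ)
    (hp : PowersOfSmooth g c m p) (A : τ → Prop) (hA : ∃ t, A t ∧ 0 < m t) :
    ∃ E : Chart g, E.k + 1 = c ∧ E.m = m ∧ E.IsRees A ∧
      ∀ H : MvPolynomial σ ℂ, MvPolynomial.eval p H ≠ 0 →
        constantCoeff (MvPolynomial.aeval E.ξ H) ≠ 0 := by
  obtain ⟨h, N, u, hdet, ⟨z, hz⟩, hNc, hNp, hu, hI⟩ := hp
  set φ : σ → MvPolynomial σ ℂ := fun s => h s - MvPolynomial.C (MvPolynomial.eval p (h s))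
    with hφdef
  have hφ0 : ∀ s, MvPolynomial.eval p (φ s) = 0 := by
    intro s
    rw [hφdef]
    simp
  have hφd : ∀ i s, MvPolynomial.pderiv i (φ s) = MvPolynomial.pderiv i (h s) := by
    intro i s
    rw [hφdef]
    simp
  have hφN : ∀ s ∈ N, φ s = h s := by
    intro s hs
    rw [hφdef]
    simp [hNp s hs]
  let D : Lc σ := ⟨1, by simp, z, Nᶜ, by simp [hz], 0⟩
  have hDz : D.z = z := rfl
  obtain ⟨ξ, hξ0, hξ⟩ := exists_inverse φ p hφ0 (by simp only [hφd]; exact hdet) D.eta D.cc_eta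
  have hcc : ∀ q : MvPolynomial σ ℂ, constantCoeff (MvPolynomial.aeval ξ q) =
      MvPolynomial.eval p q := fun q => cc_aeval' ξ p hξ0 q
  set P : Matrix σ σ (MvPowerSeries σ ℂ) := Matrix.of fun t i => pderiv ℂ t (ξ i) with hPdef
  set K : Matrix σ σ (MvPowerSeries σ ℂ) :=
    Matrix.of fun i s => MvPolynomial.aeval ξ (MvPolynomial.pderiv i (h s)) with hKdef
  have hPK : D.Je = P * K := by
    ext1 t s
    rw [Matrix.mul_apply]
    change pderiv ℂ t (D.eta s) = _
    rw [← hξ s, pderiv_aeval]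
    refine Finset.sum_congr rfl fun i _ => ?_
    rw [hφd, mul_comm]
    rfl
  have hKcc : constantCoeff K.det ≠ 0 := by
    rw [RingHom.map_det]
    convert hdet using 2
    ext1 i s
    change constantCoeff (MvPolynomial.aeval ξ (MvPolynomial.pderiv i (h s))) = _
    rw [hcc]
    rfl
  have hKinv : K.det * (K.det)⁻¹ = 1 := MvPowerSeries.mul_inv_cancel _ hKcc
  have hcard : Fintype.card σ - 1 - D.T.card + 1 = c := by
    have h1 : D.T.card = Fintype.card σ - N.card := Finset.card_compl N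
    have h2 := Finset.card_le_univ N
    have h3 : 0 < N.card := Finset.card_pos.2 ⟨z, hz⟩
    omega
  have hJac : P.det = X z ^ (Fintype.card σ - 1 - D.T.card) * (K.det)⁻¹ := by
    have h1 : P.det * K.det = X z ^ (Fintype.card σ - 1 - D.T.card) := by
      rw [← Matrix.det_mul, ← hPK, D.det_Je]
    rw [← h1, mul_assoc, hKinv, mul_one]
  have hinv0 : constantCoeff (K.det)⁻¹ ≠ 0 := by
    intro h0
    have h2 := congrArg constantCoeff hKinv
    rw [map_mul, h0, mul_zero, map_one] at h2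
    exact zero_ne_one h2
  have hhz : MvPolynomial.aeval ξ (h z) = X z := by
    rw [← hφN z hz, hξ]
    exact D.eta_z
  have hhs : ∀ s ∈ N, s ≠ z → MvPolynomial.aeval ξ (h s) = X z * X s := by
    intro s hs hsz
    rw [← hφN s hs, hξ]
    exact D.eta_N (fun h => (Finset.mem_compl.1 h) hs) hsz
  have hht : ∀ s, s ∉ N → MvPolynomial.aeval ξ (φ s) = X s := by
    intro s hs
    rw [hξ]
    exact D.eta_T (Finset.mem_compl.2 hs)
  have hJ : ∀ y ∈ Ideal.span (h '' N), (X z : MvPowerSeries σ ℂ) ∣ MvPolynomial.aeval ξ y := by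
    intro y hy
    have h1 : Ideal.span (h '' N) ≤ Ideal.comap (MvPolynomial.aeval ξ :
        MvPolynomial σ ℂ →ₐ[ℂ] MvPowerSeries σ ℂ).toRingHom (Ideal.span {X z}) := by
      rw [Ideal.span_le]
      rintro _ ⟨s, hs, rfl⟩
      change MvPolynomial.aeval ξ (h s) ∈ Ideal.span {X z}
      rw [Ideal.mem_span_singleton]
      by_cases hsz : s = z
      · rw [hsz, hhz]
      · rw [hhs s hs hsz]
        exact Dvd.intro _ rfl
    have h2 := h1 hy
    exact Ideal.mem_span_singleton.1 h2
  have hJm : ∀ (k : ℕ), ∀ y ∈ Ideal.span (h '' N) ^ k,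
      (X z : MvPowerSeries σ ℂ) ^ k ∣ MvPolynomial.aeval ξ y := fun k y hy =>
    dvd_of_mem_pow (MvPolynomial.aeval ξ : MvPolynomial σ ℂ →ₐ[ℂ] MvPowerSeries σ ℂ).toRingHom
      _ _ hJ k y hy
  have huu : IsUnit (MvPolynomial.aeval ξ u) := by
    rw [MvPowerSeries.isUnit_iff_constantCoeff, hcc]
    exact isUnit_iff_ne_zero.2 hu
  have hdiv : ∀ t j, (X z : MvPowerSeries σ ℂ) ^ m t ∣ MvPolynomial.aeval ξ (g t j) := by
    intro t j
    have h1 := hJm (m t) _ ((hI t).1 j)
    rw [map_mul] at h1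
    exact (huu.dvd_mul_left).1 h1
  choose V hV using hdiv
  have hXz : (X z : MvPowerSeries σ ℂ) ≠ 0 := X_ne0 z
  -- the relations
  have hrel : ∀ (t : τ) (y : MvPolynomial σ ℂ) (v : MvPowerSeries σ ℂ),
      y ∈ Ideal.span (h '' N) ^ m t → MvPolynomial.aeval ξ y = X z ^ m t * v →
      ∃ a : κ t → MvPolynomial σ ℂ,
        MvPolynomial.aeval ξ u * v = ∑ j, MvPolynomial.aeval ξ (a j) * V t j := by
    intro t y v hy hv
    obtain ⟨a, ha⟩ := Ideal.mem_span_range_iff_exists_fun.1 ((hI t).2 y hy)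
    refine ⟨a, ?_⟩
    apply mul_left_cancel₀ (pow_ne_zero (m t) hXz)
    have h1 := congrArg (MvPolynomial.aeval ξ) ha
    rw [map_sum, map_mul, hv] at h1
    calc X z ^ m t * (MvPolynomial.aeval ξ u * v) = MvPolynomial.aeval ξ u * (X z ^ m t * v) := by
          ring
      _ = ∑ j, MvPolynomial.aeval ξ (a j * g t j) := h1.symm
      _ = _ := by
        rw [Finset.mul_sum]
        refine Finset.sum_congr rfl fun j _ => ?_
        rw [map_mul, hV t j]
        ring
  have hmemN : ∀ s ∈ N, h s ∈ Ideal.span (h '' (N : Set σ)) := fun s hs =>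
    Ideal.subset_span ⟨s, hs, rfl⟩
  have hatt : ∀ t, ∃ j, constantCoeff (V t j) ≠ 0 := by
    intro t
    obtain ⟨a, ha⟩ := hrel t (h z ^ m t) 1
      (Ideal.pow_mem_pow (hmemN z hz) _) (by rw [map_pow, hhz, mul_one])
    by_contra hcon
    push Not at hcon
    have h1 := congrArg constantCoeff ha
    rw [mul_one, hcc, map_sum] at h1
    apply hu
    rw [h1]
    refine Finset.sum_eq_zero fun j _ => ?_
    rw [map_mul, hcon j, mul_zero]
  choose j0 hj0 using hatt
  let E : Chart g :=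
    { z := z
      ξ := ξ
      k := Fintype.card σ - 1 - D.T.card
      m := m
      j0 := j0
      jacobian := ⟨_, hinv0, hJac⟩
      divides := fun t j => ⟨V t j, hV t j⟩
      attained := fun t => ⟨V t (j0 t), hj0 t, hV t (j0 t)⟩ }
  refine ⟨E, hcard, rfl, ?_, fun H hH => by rw [hcc]; exact hH⟩
  -- the coordinates
  obtain ⟨t0, hAt, hm⟩ := hA
  have hex : ∀ s, ∃ a : κ t0 → MvPolynomial σ ℂ, s ∈ N → s ≠ z →
      MvPolynomial.aeval ξ u * X s = ∑ j, MvPolynomial.aeval ξ (a j) * V t0 j := by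
    intro s
    by_cases hs : s ∈ N ∧ s ≠ z
    · obtain ⟨n, hn⟩ := Nat.exists_eq_succ_of_ne_zero hm.ne'
      obtain ⟨a, ha⟩ := hrel t0 (h z ^ n * h s) (X s) (by
        rw [hn, Nat.succ_eq_add_one, pow_succ]
        exact Ideal.mul_mem_mul (Ideal.pow_mem_pow (hmemN z hz) _) (hmemN s hs.1)) (by
        rw [map_mul, map_pow, hhz, hhs s hs.1 hs.2, hn, Nat.succ_eq_add_one, pow_succ]
        ring)
      exact ⟨a, fun _ _ => ha⟩
    · exact ⟨fun _ => 0, fun h1 h2 => absurd ⟨h1, h2⟩ hs⟩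
  choose a ha using hex
  -- the derivatives of the chart in the directions of the fibre
  have hJe0 : ∀ r ∈ N, r ≠ z → ∀ s, constantCoeff (pderiv ℂ r (D.eta s)) = 0 := by
    intro r hr hrz s
    by_cases hs : s ∈ N
    · by_cases hsz : s = z
      · have h1 : D.eta s = X z := by rw [hsz]; exact D.eta_z
        rw [h1, pderiv_X_of_ne (Ne.symm hrz), map_zero]
      · have h1 : D.eta s = X z * X s := D.eta_N (fun h => (Finset.mem_compl.1 h) hs) hsz
        rw [h1, Derivation.leibniz, pderiv_X_of_ne (Ne.symm hrz), smul_zero, add_zero, smul_eq_mul,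
          map_mul, constantCoeff_X, zero_mul]
    · have h1 : D.eta s = X s := D.eta_T (Finset.mem_compl.2 hs)
      rw [h1, pderiv_X_of_ne, map_zero]
      rintro rfl
      exact hs hr
  have hξd : ∀ r ∈ N, r ≠ z → ∀ i, constantCoeff (pderiv ℂ r (ξ i)) = 0 := by
    intro r hr hrz
    have h1 : Matrix.vecMul (fun i => constantCoeff (pderiv ℂ r (ξ i)))
        (Matrix.of fun i s => MvPolynomial.eval p (MvPolynomial.pderiv i (h s))) = 0 := by
      funext s
      have h2 := hJe0 r hr hrz s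
      rw [← hξ s, pderiv_aeval, map_sum] at h2
      rw [Matrix.vecMul, dotProduct, Pi.zero_apply, ← h2]
      refine Finset.sum_congr rfl fun i _ => ?_
      rw [map_mul, hcc, hφd, mul_comm]
      rfl
    have h2 := Matrix.eq_zero_of_vecMul_eq_zero hdet h1
    exact fun i => congrFun h2 i
  have had : ∀ r ∈ N, r ≠ z → ∀ q : MvPolynomial σ ℂ,
      constantCoeff (pderiv ℂ r (MvPolynomial.aeval ξ q)) = 0 := by
    intro r hr hrz q
    rw [pderiv_aeval, map_sum]
    refine Finset.sum_eq_zero fun i _ => ?_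
    rw [map_mul, hξd r hr hrz, mul_zero]
  set e : σ → κ t0 → ℂ := fun s j => MvPolynomial.eval p (a s j) / MvPolynomial.eval p u with hedef
  have he0 : ∀ s ∈ N, s ≠ z → constantCoeff (∑ j, C (e s j) * V t0 j) = 0 := by
    intro s hs hsz
    have h1 := congrArg constantCoeff (ha s hs hsz)
    rw [map_mul, constantCoeff_X, mul_zero, map_sum] at h1
    rw [map_sum]
    have h2 : ∀ j, constantCoeff (C (e s j) * V t0 j) =
        (MvPolynomial.eval p u)⁻¹ * constantCoeff (MvPolynomial.aeval ξ (a s j) * V t0 j) := by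
      intro j
      rw [map_mul, map_mul, constantCoeff_C, hcc, hedef]
      ring
    rw [Finset.sum_congr rfl fun j _ => h2 j, ← Finset.mul_sum, ← h1, mul_zero]
  have hed : ∀ s ∈ N, s ≠ z → ∀ r ∈ N, r ≠ z →
      constantCoeff (pderiv ℂ r (∑ j, C (e s j) * V t0 j)) = if r = s then 1 else 0 := by
    intro s hs hsz r hr hrz
    have h1 : constantCoeff (pderiv ℂ r (MvPolynomial.aeval ξ u * X s)) =
        constantCoeff (pderiv ℂ r (∑ j, MvPolynomial.aeval ξ (a s j) * V t0 j)) := by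
      rw [ha s hs hsz]
    rw [Derivation.leibniz, smul_eq_mul, smul_eq_mul, map_add, map_mul, map_mul, had r hr hrz,
      mul_zero, add_zero, hcc, map_sum, map_sum] at h1
    have h2 : ∀ j, constantCoeff (pderiv ℂ r (MvPolynomial.aeval ξ (a s j) * V t0 j)) =
        MvPolynomial.eval p (a s j) * constantCoeff (pderiv ℂ r (V t0 j)) := by
      intro j
      rw [Derivation.leibniz, smul_eq_mul, smul_eq_mul, map_add, map_mul, map_mul, had r hr hrz,
        mul_zero, add_zero, hcc]
    rw [Finset.sum_congr rfl fun j _ => h2 j] at h1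
    have h3 : ∀ j, constantCoeff (pderiv ℂ r (C (e s j) * V t0 j)) =
        (MvPolynomial.eval p u)⁻¹ *
          (MvPolynomial.eval p (a s j) * constantCoeff (pderiv ℂ r (V t0 j))) := by
      intro j
      rw [Derivation.leibniz, pderiv_C, smul_zero, add_zero, smul_eq_mul, map_mul,
        constantCoeff_C, hedef]
      ring
    rw [map_sum, map_sum, Finset.sum_congr rfl fun j _ => h3 j, ← Finset.mul_sum, ← h1,
      ← mul_assoc, inv_mul_cancel₀ hu, one_mul]
    by_cases hrs : r = s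
    · subst hrs
      rw [if_pos rfl, pderiv_X_self, map_one]
    · rw [if_neg hrs, pderiv_X_of_ne (Ne.symm hrs), map_zero]
  have hVinv : V t0 (j0 t0) * (V t0 (j0 t0))⁻¹ = 1 := MvPowerSeries.mul_inv_cancel _ (hj0 t0)
  have hV0 : constantCoeff (V t0 (j0 t0))⁻¹ ≠ 0 := by
    intro h0
    have h2 := congrArg constantCoeff hVinv
    rw [map_mul, h0, mul_zero, map_one] at h2
    exact zero_ne_one h2
  set w : σ → MvPowerSeries σ ℂ := fun s => if s ∈ N ∧ s ≠ z then
    (∑ j, C (e s j) * V t0 j) * (V t0 (j0 t0))⁻¹ else X s with hwdef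
  have hwN : ∀ s ∈ N, s ≠ z → w s = (∑ j, C (e s j) * V t0 j) * (V t0 (j0 t0))⁻¹ :=
    fun s hs hsz => if_pos ⟨hs, hsz⟩
  have hwX : ∀ s, ¬ (s ∈ N ∧ s ≠ z) → w s = X s := fun s hs => if_neg hs
  refine ⟨w, hwX z (fun h => h.2 rfl), fun s => ?_, ?_, fun s hsz => ?_⟩
  · by_cases hs : s ∈ N ∧ s ≠ z
    · rw [hwN s hs.1 hs.2, map_mul, he0 s hs.1 hs.2, zero_mul]
    · rw [hwX s hs, constantCoeff_X]
  · intro hdet0
    obtain ⟨x, hx0, hx⟩ := Matrix.exists_mulVec_eq_zero_iff.2 hdet0
    apply hx0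
    have hrow : ∀ r, ∑ s, constantCoeff (pderiv ℂ r (w s)) * x s = 0 := fun r => congrFun hx r
    have h1 : ∀ r ∈ N, r ≠ z → x r = 0 := by
      intro r hr hrz
      have h2 := hrow r
      rw [Finset.sum_eq_single r] at h2
      · rw [hwN r hr hrz, Derivation.leibniz, smul_eq_mul, smul_eq_mul, map_add, map_mul, map_mul,
          he0 r hr hrz, zero_mul, zero_add, hed r hr hrz r hr hrz, if_pos rfl, mul_one] at h2
        exact (mul_eq_zero.1 h2).resolve_left hV0
      · intro s _ hsr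
        by_cases hs : s ∈ N ∧ s ≠ z
        · rw [hwN s hs.1 hs.2, Derivation.leibniz, smul_eq_mul, smul_eq_mul, map_add, map_mul,
            map_mul, he0 s hs.1 hs.2, zero_mul, zero_add, hed s hs.1 hs.2 r hr hrz,
            if_neg (Ne.symm hsr), mul_zero, zero_mul]
        · rw [hwX s hs, pderiv_X_of_ne hsr, map_zero, zero_mul]
      · intro h
        exact absurd (Finset.mem_univ r) h
    funext r
    by_cases hr : r ∈ N ∧ r ≠ z
    · exact h1 r hr.1 hr.2
    · have h2 := hrow r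
      rw [Finset.sum_eq_single r] at h2
      · rw [hwX r hr, pderiv_X_self, map_one, one_mul] at h2
        exact h2
      · intro s _ hsr
        by_cases hs : s ∈ N ∧ s ≠ z
        · rw [h1 s hs.1 hs.2, mul_zero]
        · rw [hwX s hs, pderiv_X_of_ne hsr, map_zero, zero_mul]
      · intro h
        exact absurd (Finset.mem_univ r) h
  · by_cases hs : s ∈ N
    · right
      refine ⟨t0, hAt, e s, ?_⟩
      change ∑ j, e s j • MvPolynomial.aeval ξ (g t0 j) =
        MvPolynomial.aeval ξ (g t0 (j0 t0)) * w s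
      rw [hwN s hs hsz, hV t0 (j0 t0)]
      have h1 : ∑ j, e s j • MvPolynomial.aeval ξ (g t0 j) =
          X z ^ m t0 * ∑ j, C (e s j) * V t0 j := by
        rw [Finset.mul_sum]
        refine Finset.sum_congr rfl fun j _ => ?_
        rw [hV t0 j, smul_eq_C_mul]
        ring
      rw [h1]
      linear_combination (- X z ^ m t0 * ∑ j, C (e s j) * V t0 j) * hVinv
    · left
      refine ⟨φ s, ?_⟩
      change MvPolynomial.aeval ξ (φ s) = w s
      rw [hht s hs, hwX s fun h => hs h.1]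

end Pool.Agent.R852.SC
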