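import Pool.Agent.R852.SC.Main

set_option autoImplicit false
set_option linter.unusedSectionVars false
set_option linter.unusedVariables false

/-! # Tuples of forms over homogeneous ideals with smooth zero schemes -/

namespace Pool.Agent.R852.SC

open MvPolynomial Pool.Agent.W574.SM Pool.Agent.W574.LM Pool.Agent.W574.HS
  Pool.Agent.H628R4.TP Pool.Agent.TH187.SA Pool.Agent.Y231.RF Pool.Agent.TH192.DT

variable {σ T I : Type} [Fintype σ] [DecidableEq σ] [Fintype T] [DecidableEq T] [Fintype I]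
  {κ : T → Type} [∀ t, Fintype (κ t)] [∀ t, DecidableEq (κ t)]

/-- The vectors of multiplicities of the tuple `(F_t)`: `δ` along the exceptional divisor over the
origin, `m i` along the exceptional divisor over the cone of `Z_i`, and the unit vectors along the
strict transforms. -/
def mulV {I T : Type} [DecidableEq T] (δ : T → ℕ) (m : I → T → ℕ) : Option I ⊕ T → T → ℕ :=
  Sum.elim (fun o => o.elim δ m) fun t => Pi.single t 1

theorem cone_tuple (g : (t : T) → κ t → MvPolynomial σ ℂ) (δ : T → ℕ) (hδ : ∀ t, 0 < δ t)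
    (hg : ∀ t j, (g t j).IsHomogeneous (δ t)) (hg0 : ∀ t, ∃ j, g t j ≠ 0)
    (hJ : ∃ t, ∃ e : σ → κ t, (Matrix.of fun i s => pderiv i (g t (e s))).det ≠ 0)
    (c : I → ℕ) (m : I → T → ℕ) (p : I → σ → ℂ) (hp : ∀ i, PowersOfSmooth g (c i) (m i) (p i))
    (χ : Finset (Option I ⊕ T) → ℤ) (z : T → ℂ)
    (hz : z ∈ PolarLocus (topM (nuC (Fintype.card σ) c T) (mulV δ m) χ)) :
    ∃ x, ∑ t, (mulV δ m x t : ℂ) * z t + (nuC (Fintype.card σ) c T x : ℂ) = 0 ∧
      ∀ n : T → ℕ, (∀ t, 0 < n t) → ∀ b : Polynomial ℂ, IsBFunction (powProd n g) b →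
        b.eval (-(nuC (Fintype.card σ) c T x : ℂ) / ∑ t, (n t : ℂ) * (mulV δ m x t : ℂ)) = 0 := by
  have : Nonempty T := ⟨hJ.choose⟩
  have := nonempty_of g δ hδ hg hg0
  have hν := nuC_pos (T := T) g c m p hp
  obtain ⟨x, hx⟩ := polar_topM _ hν _ χ z hz
  refine ⟨x, hx, fun n hn b hb => ?_⟩
  have hmul : mulC δ m n x = ∑ t, n t * mulV δ m x t := by
    rcases x with o | t
    · rfl
    · change n t = ∑ t', n t' * (Pi.single t 1 : T → ℕ) t'
      rw [Finset.sum_eq_single t]
      · rw [Pi.single_eq_same, mul_one]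
      · intro t' _ ht'
        rw [Pi.single_eq_of_ne ht', mul_zero]
      · intro h; exact absurd (Finset.mem_univ _) h
  have hpos : 0 < mulC δ m n x := by
    rcases Nat.eq_zero_or_pos (mulC δ m n x) with h0 | h0
    · exfalso
      rw [hmul] at h0
      have h1 : ∀ t, mulV δ m x t = 0 := fun t =>
        (Nat.mul_eq_zero.1 ((Finset.sum_eq_zero_iff.1 h0) t (Finset.mem_univ t))).resolve_left
          (hn t).ne'
      have h2 : ∑ t, (mulV δ m x t : ℂ) * z t = 0 :=
        Finset.sum_eq_zero fun t _ => by rw [h1 t, Nat.cast_zero, zero_mul]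
      rw [h2, zero_add] at hx
      exact (hν x).ne' (Nat.cast_eq_zero.1 hx)
    · exact h0
  obtain ⟨t0, e, he⟩ := hJ
  have h := pow_comp g δ hδ hg hg0 n ⟨t0, (hn t0).ne', e, he⟩ c m p hp b
    (powData_global n g hg0 b hb) x hpos
  rw [hmul] at h
  push_cast at h
  exact h

end Pool.Agent.R852.SC
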